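import Mathlib

/-! From a unimodular intertwiner between two transitive actions to core-free subgroups with
isomorphic integral permutation modules that are not isomorphic as groups. -/

namespace Q17.Scott

open Equiv

lemma appInv {α : Type} (f : Perm α) (x : α) : f (f⁻¹ x) = x := f.apply_symm_apply x
lemma invApp {α : Type} (f : Perm α) (x : α) : f⁻¹ (f x) = x := f.symm_apply_apply x

section

variable {X₁ X₂ : Type} (M : X₁ → X₂ → ℤ)

/-- pairs of permutations preserving the matrix -/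
def Aut : Subgroup (Perm X₁ × Perm X₂) where
  carrier := {g | ∀ x y, M (g.1 x) (g.2 y) = M x y}
  one_mem' := fun _ _ => rfl
  mul_mem' := by
    intro a b ha hb x y
    change M (a.1 (b.1 x)) (a.2 (b.2 y)) = M x y
    rw [ha, hb]
  inv_mem' := by
    intro a ha x y
    have := ha (a.1⁻¹ x) (a.2⁻¹ y)
    rw [appInv, appInv] at this
    exact this.symm

/-- The wreath product of the symmetric group of degree four and `Aut M` acting on `X₁`. -/
@[ext] structure Wr where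
  /-- base part -/
  u : X₁ → Perm (Fin 4)
  /-- top part -/
  g : Aut M

variable {M}

instance : Mul (Wr M) := ⟨fun a b => ⟨fun x => a.u x * b.u (a.g.1.1⁻¹ x), a.g * b.g⟩⟩
instance : One (Wr M) := ⟨⟨fun _ => 1, 1⟩⟩
instance : Inv (Wr M) := ⟨fun a => ⟨fun x => (a.u (a.g.1.1 x))⁻¹, a.g⁻¹⟩⟩

lemma mul_u (a b : Wr M) (x : X₁) : (a * b).u x = a.u x * b.u (a.g.1.1⁻¹ x) := rfl
lemma mul_g (a b : Wr M) : (a * b).g = a.g * b.g := rfl
lemma one_u (x : X₁) : (1 : Wr M).u x = 1 := rfl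
lemma one_g : (1 : Wr M).g = 1 := rfl
lemma inv_u (a : Wr M) (x : X₁) : (a⁻¹).u x = (a.u (a.g.1.1 x))⁻¹ := rfl
lemma inv_g (a : Wr M) : (a⁻¹).g = a.g⁻¹ := rfl

instance : Group (Wr M) :=
  Group.ofLeftAxioms
    (by
      intro a b c
      apply Wr.ext
      · funext x
        rw [mul_u, mul_u, mul_u, mul_u, mul_assoc]
        rfl
      · rw [mul_g, mul_g, mul_g, mul_g, mul_assoc])
    (by
      intro a
      apply Wr.ext
      · funext x
        rw [mul_u, one_u, one_mul]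
        rfl
      · rw [mul_g, one_g, one_mul])
    (by
      intro a
      apply Wr.ext
      · funext x
        rw [mul_u, inv_u, one_u]
        have : ((a⁻¹).g.1.1)⁻¹ x = a.g.1.1 x := by
          rw [inv_g]
          rfl
        rw [this, inv_mul_cancel]
      · rw [mul_g, inv_g, one_g, inv_mul_cancel])

instance [Finite X₁] [Finite X₂] : Finite (Wr M) := by
  have e : Wr M ≃ (X₁ → Perm (Fin 4)) × Aut M :=
    { toFun := fun a => (a.u, a.g)
      invFun := fun p => ⟨p.1, p.2⟩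
      left_inv := fun _ => rfl
      right_inv := fun _ => rfl }
  exact Finite.of_equiv _ e.symm

lemma conj_u (k n : Wr M) (x : X₁) : (k * n * k⁻¹).u x =
    k.u x * n.u (k.g.1.1⁻¹ x) * (k.u (k.g.1.1 (n.g.1.1⁻¹ (k.g.1.1⁻¹ x))))⁻¹ := by
  rw [mul_u, mul_u, inv_u, mul_g]
  rfl

/-- first set acted upon -/
@[ext] structure Om₁ {Y₁ Y₂ : Type} (_M : Y₁ → Y₂ → ℤ) where
  /-- labelling -/
  c : Y₁ → Fin 4
  /-- point -/
  x : Y₁

/-- second set acted upon -/
@[ext] structure Om₂ {Y₁ Y₂ : Type} (_M : Y₁ → Y₂ → ℤ) where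
  /-- labelling -/
  c : Y₁ → Fin 4
  /-- point -/
  x : Y₂

/-- as a product -/
def Om₁.equiv : Om₁ M ≃ (X₁ → Fin 4) × X₁ where
  toFun p := (p.c, p.x)
  invFun p := ⟨p.1, p.2⟩
  left_inv _ := rfl
  right_inv _ := rfl

/-- as a product -/
def Om₂.equiv : Om₂ M ≃ (X₁ → Fin 4) × X₂ where
  toFun p := (p.c, p.x)
  invFun p := ⟨p.1, p.2⟩
  left_inv _ := rfl
  right_inv _ := rfl

/-- action on labellings -/
def act (a : Wr M) (c : X₁ → Fin 4) : X₁ → Fin 4 := fun x => a.u x (c (a.g.1.1⁻¹ x))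

lemma act_one (c : X₁ → Fin 4) : act (1 : Wr M) c = c := rfl

lemma act_mul (a b : Wr M) (c : X₁ → Fin 4) : act (a * b) c = act a (act b c) := rfl

instance : MulAction (Wr M) (Om₁ M) where
  smul a p := ⟨act a p.c, a.g.1.1 p.x⟩
  one_smul _ := rfl
  mul_smul _ _ _ := rfl

instance : MulAction (Wr M) (Om₂ M) where
  smul a p := ⟨act a p.c, a.g.1.2 p.x⟩
  one_smul _ := rfl
  mul_smul _ _ _ := rfl

lemma smul₁ (a : Wr M) (p : Om₁ M) : a • p = ⟨act a p.c, a.g.1.1 p.x⟩ := rfl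
lemma smul₂ (a : Wr M) (p : Om₂ M) : a • p = ⟨act a p.c, a.g.1.2 p.x⟩ := rfl

/-- an element moving the constant labelling to a given one -/
lemma exists_move (g : Aut M) (c : X₁ → Fin 4) :
    ∃ a : Wr M, a.g = g ∧ act a (fun _ => 3) = c := by
  refine ⟨⟨fun x => Equiv.swap 3 (c x), g⟩, rfl, ?_⟩
  funext x
  change Equiv.swap 3 (c x) 3 = c x
  exact Equiv.swap_apply_left _ _

lemma trans₁ (h : ∀ x y : X₁, ∃ g ∈ Aut M, g.1 x = y) (x₁ : X₁) (p : Om₁ M) :
    ∃ a : Wr M, a • (⟨fun _ => 3, x₁⟩ : Om₁ M) = p := by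
  obtain ⟨g, hg, hgx⟩ := h x₁ p.x
  obtain ⟨a, hag, hac⟩ := exists_move (M := M) ⟨g, hg⟩ p.c
  refine ⟨a, ?_⟩
  rw [smul₁]
  apply Om₁.ext
  · exact hac
  · rw [hag]; exact hgx

lemma trans₂ (h : ∀ x y : X₂, ∃ g ∈ Aut M, g.2 x = y) (x₂ : X₂) (p : Om₂ M) :
    ∃ a : Wr M, a • (⟨fun _ => 3, x₂⟩ : Om₂ M) = p := by
  obtain ⟨g, hg, hgx⟩ := h x₂ p.x
  obtain ⟨a, hag, hac⟩ := exists_move (M := M) ⟨g, hg⟩ p.c
  refine ⟨a, ?_⟩
  rw [smul₂]
  apply Om₂.ext
  · exact hac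
  · rw [hag]; exact hgx

/-- the first subgroup -/
def K₁ (M : X₁ → X₂ → ℤ) (x₁ : X₁) : Subgroup (Wr M) :=
  MulAction.stabilizer (Wr M) (⟨fun _ => 3, x₁⟩ : Om₁ M)
/-- the second subgroup -/
def K₂ (M : X₁ → X₂ → ℤ) (x₂ : X₂) : Subgroup (Wr M) :=
  MulAction.stabilizer (Wr M) (⟨fun _ => 3, x₂⟩ : Om₂ M)

lemma mem_K₁ {x₁ : X₁} {a : Wr M} :
    a ∈ K₁ M x₁ ↔ (∀ x, a.u x 3 = 3) ∧ a.g.1.1 x₁ = x₁ := by
  unfold K₁
  rw [MulAction.mem_stabilizer_iff, smul₁]
  constructor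
  · intro h
    exact ⟨fun x => congrFun (congrArg Om₁.c h) x, congrArg Om₁.x h⟩
  · rintro ⟨h1, h2⟩
    exact Om₁.ext (funext h1) h2

lemma mem_K₂ {x₂ : X₂} {a : Wr M} :
    a ∈ K₂ M x₂ ↔ (∀ x, a.u x 3 = 3) ∧ a.g.1.2 x₂ = x₂ := by
  unfold K₂
  rw [MulAction.mem_stabilizer_iff, smul₂]
  constructor
  · intro h
    exact ⟨fun x => congrFun (congrArg Om₂.c h) x, congrArg Om₂.x h⟩
  · rintro ⟨h1, h2⟩
    exact Om₂.ext (funext h1) h2

section lin

variable [Fintype X₁] [Fintype X₂]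

/-- the linear map induced by the matrix -/
noncomputable def Lmap (M : X₁ → X₂ → ℤ) : (Om₁ M →₀ ℤ) →ₗ[ℤ] (Om₂ M →₀ ℤ) :=
  Finsupp.linearCombination ℤ (fun p : Om₁ M =>
    ∑ y : X₂, M p.x y • (Finsupp.single (⟨p.c, y⟩ : Om₂ M) (1 : ℤ)))

lemma Lmap_single (p : Om₁ M) (r : ℤ) : Lmap M (Finsupp.single p r) =
    r • ∑ y : X₂, M p.x y • (Finsupp.single (⟨p.c, y⟩ : Om₂ M) (1 : ℤ)) := by
  unfold Lmap
  rw [Finsupp.linearCombination_single]

lemma Lmap_equi (a : Wr M) (v : Om₁ M →₀ ℤ) :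
    Lmap M (Finsupp.mapDomain (a • ·) v) = Finsupp.mapDomain (a • ·) (Lmap M v) := by
  induction v using Finsupp.induction_linear with
  | zero => simp
  | add f g hf hg =>
    rw [Finsupp.mapDomain_add, map_add, hf, hg, map_add, Finsupp.mapDomain_add]
  | single p r =>
    rw [Finsupp.mapDomain_single, Lmap_single, Lmap_single, Finsupp.mapDomain_smul]
    congr 1
    rw [Finsupp.mapDomain_finset_sum]
    refine Fintype.sum_equiv (a.g.1.2).symm _ _ ?_
    intro y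
    rw [Finsupp.mapDomain_smul, Finsupp.mapDomain_single]
    have h1 : M (a • p).x y = M p.x ((a.g.1.2).symm y) := by
      have h2 := a.g.2 p.x ((a.g.1.2).symm y)
      rw [← h2]
      congr 1
      exact (Equiv.apply_symm_apply _ _).symm
    rw [h1]
    congr 2
    rw [smul₂]
    apply Om₂.ext
    · rfl
    · exact (Equiv.apply_symm_apply _ _).symm

lemma Lmap_surj [DecidableEq X₂] (h₂ : ∀ x y : X₂, ∃ g ∈ Aut M, g.2 x = y) (y₀ : X₂)
    (v : X₁ → ℤ) (hv : ∀ y, ∑ x, v x * M x y = if y = y₀ then 1 else 0) :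
    Function.Surjective (Lmap M) := by
  have hbase : ∀ c : X₁ → Fin 4, ∃ w, Lmap M w = Finsupp.single (⟨c, y₀⟩ : Om₂ M) 1 := by
    intro c
    refine ⟨∑ x, Finsupp.single (⟨c, x⟩ : Om₁ M) (v x), ?_⟩
    rw [map_sum]
    simp only [Lmap_single, Finset.smul_sum, smul_smul]
    rw [Finset.sum_comm]
    have h1 : ∀ y, ∑ x, (v x * M x y) • (Finsupp.single (⟨c, y⟩ : Om₂ M) (1 : ℤ)) =
        if y = y₀ then Finsupp.single (⟨c, y₀⟩ : Om₂ M) (1 : ℤ) else 0 := by
      intro y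
      rw [← Finset.sum_smul, hv]
      split_ifs with h
      · rw [h, one_smul]
      · rw [zero_smul]
    rw [Finset.sum_congr rfl fun y _ => h1 y]
    simp
  intro t
  induction t using Finsupp.induction_linear with
  | zero => exact ⟨0, map_zero _⟩
  | add f g hf hg =>
    obtain ⟨a, ha⟩ := hf
    obtain ⟨b, hb⟩ := hg
    exact ⟨a + b, by rw [map_add, ha, hb]⟩
  | single p r =>
    obtain ⟨g, hg, hgy⟩ := h₂ y₀ p.x
    let a : Wr M := ⟨fun _ => 1, ⟨g, hg⟩⟩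
    obtain ⟨w, hw⟩ := hbase (act a⁻¹ p.c)
    refine ⟨r • Finsupp.mapDomain (a • ·) w, ?_⟩
    rw [map_smul, Lmap_equi, hw, Finsupp.mapDomain_single]
    have h1 : a • (⟨act a⁻¹ p.c, y₀⟩ : Om₂ M) = p := by
      rw [smul₂]
      apply Om₂.ext
      · change act a (act a⁻¹ p.c) = p.c
        rw [← act_mul, mul_inv_cancel, act_one]
      · exact hgy
    rw [h1, Finsupp.smul_single, smul_eq_mul, mul_one]

lemma Lmap_bij [DecidableEq X₂] (hcard : Fintype.card X₁ = Fintype.card X₂)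
    (h₂ : ∀ x y : X₂, ∃ g ∈ Aut M, g.2 x = y) (y₀ : X₂)
    (v : X₁ → ℤ) (hv : ∀ y, ∑ x, v x * M x y = if y = y₀ then 1 else 0) :
    Function.Bijective (Lmap M) := by
  have e : X₁ ≃ X₂ := Fintype.equivOfCardEq hcard
  let e' : Om₁ M ≃ Om₂ M :=
    (Om₁.equiv.trans (Equiv.prodCongr (Equiv.refl _) e)).trans Om₂.equiv.symm
  have hfin : Finite (Om₂ M) := Finite.of_equiv _ Om₂.equiv.symm
  exact OrzechProperty.bijective_of_surjective_of_injective
    (Finsupp.domLCongr e' : (Om₁ M →₀ ℤ) ≃ₗ[ℤ] (Om₂ M →₀ ℤ)).toLinearMap (Lmap M)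
    (LinearEquiv.injective _) (Lmap_surj h₂ y₀ v hv)

end lin

/-- Integral coset equivalence: an isomorphism of the integral permutation modules. -/
def ZEquiv {Γ : Type} [Group Γ] (H K : Subgroup Γ) : Prop :=
  ∃ φ : ((Γ ⧸ H) →₀ ℤ) ≃ₗ[ℤ] ((Γ ⧸ K) →₀ ℤ), ∀ (g : Γ) (v : (Γ ⧸ H) →₀ ℤ),
    φ (Finsupp.mapDomain (fun x => g • x) v) = Finsupp.mapDomain (fun x => g • x) (φ v)

/-- a transitive action as a coset action -/
lemma exists_coset_equiv {Γ Ω : Type} [Group Γ] [MulAction Γ Ω] (ω : Ω)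
    (h : ∀ p : Ω, ∃ a : Γ, a • ω = p) : ∃ e : Γ ⧸ MulAction.stabilizer Γ ω ≃ Ω,
      ∀ (g : Γ) x, e (g • x) = g • e x := by
  refine ⟨Equiv.ofBijective (MulAction.ofQuotientStabilizer Γ ω)
    ⟨MulAction.injective_ofQuotientStabilizer Γ ω, ?_⟩, fun g x => ?_⟩
  · intro p
    obtain ⟨a, ha⟩ := h p
    exact ⟨(a : Γ ⧸ MulAction.stabilizer Γ ω), ha⟩
  · exact MulAction.ofQuotientStabilizer_smul Γ ω g x

theorem zequiv [Fintype X₁] [Fintype X₂] [DecidableEq X₂]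
    (hcard : Fintype.card X₁ = Fintype.card X₂)
    (h₁ : ∀ x y : X₁, ∃ g ∈ Aut M, g.1 x = y)
    (h₂ : ∀ x y : X₂, ∃ g ∈ Aut M, g.2 x = y) (x₁ : X₁) (x₂ y₀ : X₂)
    (v : X₁ → ℤ) (hv : ∀ y, ∑ x, v x * M x y = if y = y₀ then 1 else 0) :
    ZEquiv (K₁ M x₁) (K₂ M x₂) := by
  obtain ⟨e₁, he₁⟩ : ∃ e : Wr M ⧸ K₁ M x₁ ≃ Om₁ M, ∀ (g : Wr M) x, e (g • x) = g • e x :=
    exists_coset_equiv (⟨fun _ => 3, x₁⟩ : Om₁ M) (trans₁ h₁ x₁)
  obtain ⟨e₂, he₂⟩ : ∃ e : Wr M ⧸ K₂ M x₂ ≃ Om₂ M, ∀ (g : Wr M) x, e (g • x) = g • e x :=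
    exists_coset_equiv (⟨fun _ => 3, x₂⟩ : Om₂ M) (trans₂ h₂ x₂)
  have hb := Lmap_bij hcard h₂ y₀ v hv
  let φ : ((Wr M ⧸ K₁ M x₁) →₀ ℤ) ≃ₗ[ℤ] ((Wr M ⧸ K₂ M x₂) →₀ ℤ) :=
    ((Finsupp.domLCongr e₁ : _ ≃ₗ[ℤ] _).trans (LinearEquiv.ofBijective (Lmap M) hb)).trans
      (Finsupp.domLCongr e₂.symm : _ ≃ₗ[ℤ] _)
  refine ⟨φ, fun g w => ?_⟩
  have hφ : ∀ w, φ w = Finsupp.mapDomain e₂.symm (Lmap M (Finsupp.mapDomain e₁ w)) := by
    intro w
    change Finsupp.equivMapDomain e₂.symm (Lmap M (Finsupp.equivMapDomain e₁ w)) = _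
    rw [Finsupp.equivMapDomain_eq_mapDomain, Finsupp.equivMapDomain_eq_mapDomain]
  rw [hφ, hφ, ← Finsupp.mapDomain_comp]
  have h1 : (e₁ ∘ fun x => g • x) = (fun p => g • p) ∘ e₁ := by
    funext x
    exact he₁ g x
  rw [h1, Finsupp.mapDomain_comp, Lmap_equi, ← Finsupp.mapDomain_comp, ← Finsupp.mapDomain_comp]
  congr 1
  funext p
  change e₂.symm (g • p) = g • e₂.symm p
  rw [Equiv.symm_apply_eq, he₂, Equiv.apply_symm_apply]

/-- `Wr M` acts faithfully on the labellings -/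
lemma faithful (a : Wr M) (h : ∀ c : X₁ → Fin 4, act a c = c) (hM : a.g.1.1 = 1 → a.g = 1) :
    a = 1 := by
  classical
  have hu : ∀ x, a.u x = 1 := by
    intro x
    apply Equiv.ext
    intro i
    have := congrFun (h (fun _ => i)) x
    exact this
  have hg : a.g.1.1 = 1 := by
    apply Equiv.ext
    intro x
    by_contra hne
    have h1 := congrFun (h (fun z => if z = x then 1 else 0)) (a.g.1.1 x)
    have h2 : act a (fun z => if z = x then (1 : Fin 4) else 0) (a.g.1.1 x) = 1 := by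
      unfold act
      rw [hu, invApp]
      simp
    rw [h2] at h1
    have h3 : ¬ a.g.1.1 x = x := hne
    simp [h3] at h1
  exact Wr.ext (funext hu) (hM hg)

/-- columns of the matrix are distinct -/
lemma aut_faithful [Fintype X₁] [DecidableEq X₂]
    (h₂ : ∀ x y : X₂, ∃ g ∈ Aut M, g.2 x = y) (y₀ : X₂)
    (v : X₁ → ℤ) (hv : ∀ y, ∑ x, v x * M x y = if y = y₀ then 1 else 0)
    (g : Aut M) (hg : g.1.1 = 1) : g = 1 := by
  have hcol : ∀ y y' : X₂, (∀ x, M x y = M x y') → y = y' := by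
    intro y y' h
    obtain ⟨k, hk, hky⟩ := h₂ y₀ y
    have e1 : ∀ z, ∑ x, v (k.1⁻¹ x) * M x z = if z = y then 1 else 0 := by
      intro z
      have h3 : ∑ x, v (k.1⁻¹ x) * M x z = ∑ x, v x * M x (k.2⁻¹ z) := by
        refine Fintype.sum_equiv k.1⁻¹ _ _ ?_
        intro x
        congr 1
        have h4 := hk (k.1⁻¹ x) (k.2⁻¹ z)
        rw [appInv, appInv] at h4
        exact h4
      rw [h3, hv]
      have h5 : k.2⁻¹ z = y₀ ↔ z = y := by
        rw [← hky]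
        constructor
        · intro h; rw [← h, appInv]
        · intro h; rw [h, invApp]
      simp only [h5]
    have h6 := e1 y
    have h7 := e1 y'
    rw [if_pos rfl] at h6
    have h8 : ∑ x, v (k.1⁻¹ x) * M x y = ∑ x, v (k.1⁻¹ x) * M x y' :=
      Finset.sum_congr rfl fun x _ => by rw [h x]
    rw [h6, h7] at h8
    by_contra hne
    rw [if_neg (Ne.symm hne)] at h8
    exact one_ne_zero h8
  apply Subtype.ext
  apply Prod.ext
  · exact hg
  · apply Equiv.ext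
    intro y
    apply hcol
    intro x
    have := g.2 x y
    rw [hg] at this
    exact this

lemma coreFree₁ [Fintype X₁] [DecidableEq X₂] (h₁ : ∀ x y : X₁, ∃ g ∈ Aut M, g.1 x = y)
    (hM : ∀ g : Aut M, g.1.1 = 1 → g = 1) (x₁ : X₁) : (K₁ M x₁).normalCore = ⊥ := by
  rw [eq_bot_iff]
  intro a ha
  rw [Subgroup.mem_bot]
  refine faithful a ?_ (hM a.g)
  intro c
  obtain ⟨b, hb⟩ := trans₁ h₁ x₁ (⟨c, x₁⟩ : Om₁ M)
  have h1 : b⁻¹ * a * b ∈ K₁ M x₁ := by
    have := ha b⁻¹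
    rwa [inv_inv] at this
  unfold K₁ at h1
  rw [MulAction.mem_stabilizer_iff, mul_smul, hb, mul_smul, inv_smul_eq_iff, hb] at h1
  exact congrArg Om₁.c h1

lemma coreFree₂ [Fintype X₁] [DecidableEq X₂] (h₂ : ∀ x y : X₂, ∃ g ∈ Aut M, g.2 x = y)
    (hM : ∀ g : Aut M, g.1.1 = 1 → g = 1) (x₂ : X₂) : (K₂ M x₂).normalCore = ⊥ := by
  rw [eq_bot_iff]
  intro a ha
  rw [Subgroup.mem_bot]
  refine faithful a ?_ (hM a.g)
  intro c
  obtain ⟨b, hb⟩ := trans₂ h₂ x₂ (⟨c, x₂⟩ : Om₂ M)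
  have h1 : b⁻¹ * a * b ∈ K₂ M x₂ := by
    have := ha b⁻¹
    rwa [inv_inv] at this
  unfold K₂ at h1
  rw [MulAction.mem_stabilizer_iff, mul_smul, hb, mul_smul, inv_smul_eq_iff, hb] at h1
  exact congrArg Om₂.c h1

/-- the distinguishing property: a normal subgroup of order three -/
def HasC3 (K : Type) [Group K] : Prop :=
  ∃ n : K, n ≠ 1 ∧ n ^ 3 = 1 ∧ ∀ k : K, k * n * k⁻¹ = n ∨ k * n * k⁻¹ = n⁻¹

lemma hasC3_of_equiv {K L : Type} [Group K] [Group L] (e : K ≃* L) (h : HasC3 K) : HasC3 L := by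
  obtain ⟨n, h1, h3, hk⟩ := h
  refine ⟨e n, ?_, ?_, ?_⟩
  · intro h
    apply h1
    exact e.injective (by rw [h, map_one])
  · rw [← map_pow, h3, map_one]
  · intro k
    obtain ⟨k', rfl⟩ := e.surjective k
    rcases hk k' with h | h
    · left
      rw [← map_inv, ← map_mul, ← map_mul, h]
    · right
      rw [← map_inv, ← map_mul, ← map_mul, h, map_inv]

/-- a three-cycle -/
def c3 : Perm (Fin 4) := Equiv.swap 0 1 * Equiv.swap 1 2

lemma c3_facts : c3 ≠ 1 ∧ c3 ^ 3 = 1 ∧ c3 3 = 3 := by decide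

lemma c3_conj : ∀ w : Perm (Fin 4), w 3 = 3 → w * c3 * w⁻¹ = c3 ∨ w * c3 * w⁻¹ = c3⁻¹ := by
  decide

lemma t_facts : ∀ s : Perm (Fin 4), s 3 = 3 → s ≠ 1 → s ^ 3 = 1 →
    Equiv.swap 0 1 * s * (Equiv.swap 0 1)⁻¹ ≠ s := by decide

lemma t_ne : (Equiv.swap 0 1 : Perm (Fin 4)) ≠ 1 ∧ (Equiv.swap 0 1 : Perm (Fin 4)) 3 = 3 := by
  decide

lemma hasC3_K₁ [DecidableEq X₁] (x₁ : X₁) : HasC3 (K₁ M x₁) := by
  let n : Wr M := ⟨Function.update (fun _ => 1) x₁ c3, 1⟩
  have hnu : ∀ x, n.u x = if x = x₁ then c3 else 1 := by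
    intro x
    by_cases h : x = x₁
    · subst h; simp [n]
    · simp [n, h]
  have hng : n.g = 1 := rfl
  have hn : n ∈ K₁ M x₁ := by
    rw [mem_K₁]
    refine ⟨fun x => ?_, rfl⟩
    rw [hnu]
    split_ifs
    · exact c3_facts.2.2
    · rfl
  have hpowg : ∀ k : ℕ, (n ^ k).g = 1 := by
    intro k
    induction k with
    | zero => rfl
    | succ k ih => rw [pow_succ, mul_g, ih, hng, one_mul]
  have hpow : ∀ (k : ℕ) x, (n ^ k).u x = (n.u x) ^ k := by
    intro k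
    induction k with
    | zero => intro x; rfl
    | succ k ih =>
      intro x
      rw [pow_succ, mul_u, ih, hpowg, pow_succ]
      rfl
  refine ⟨⟨n, hn⟩, ?_, ?_, ?_⟩
  · intro h
    have h1 : n = 1 := congrArg Subtype.val h
    have h2 : n.u x₁ = 1 := by rw [h1]; rfl
    rw [hnu, if_pos rfl] at h2
    exact c3_facts.1 h2
  · apply Subtype.ext
    change n ^ 3 = 1
    apply Wr.ext
    · funext x
      rw [hpow, hnu, one_u]
      split_ifs
      · exact c3_facts.2.1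
      · exact one_pow _
    · exact hpowg 3
  · rintro ⟨k, hk⟩
    rw [mem_K₁] at hk
    obtain ⟨hk1, hk2⟩ := hk
    have hu : ∀ x, (k * n * k⁻¹).u x = if x = x₁ then k.u x₁ * c3 * (k.u x₁)⁻¹ else 1 := by
      intro x
      rw [conj_u, hng]
      have h1 : (((1 : Aut M) : Perm X₁ × Perm X₂).1)⁻¹ = 1 := by simp
      rw [h1, Perm.one_apply, appInv, hnu]
      by_cases hx : x = x₁
      · subst hx
        have h2 : (k.g.1.1)⁻¹ x = x := by
          rw [Perm.inv_eq_iff_eq]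
          exact hk2.symm
        rw [h2, if_pos rfl, if_pos rfl]
      · have h2 : (k.g.1.1)⁻¹ x ≠ x₁ := by
          intro h
          apply hx
          rw [Perm.inv_eq_iff_eq] at h
          rw [h, hk2]
        rw [if_neg h2, if_neg hx, mul_one, mul_inv_cancel]
    have hg : (k * n * k⁻¹).g = 1 := by
      rw [mul_g, mul_g, inv_g, hng, mul_one, mul_inv_cancel]
    rcases c3_conj (k.u x₁) (hk1 x₁) with h | h
    · left
      apply Subtype.ext
      change k * n * k⁻¹ = n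
      apply Wr.ext
      · funext x
        rw [hu, hnu, h]
      · rw [hg, hng]
    · right
      apply Subtype.ext
      change k * n * k⁻¹ = n⁻¹
      apply Wr.ext
      · funext x
        rw [hu, inv_u, hng, h]
        have h1 : ((1 : Aut M) : Perm X₁ × Perm X₂).1 x = x := rfl
        rw [h1, hnu]
        split_ifs
        · rfl
        · rw [inv_one]
      · rw [hg, inv_g, hng, inv_one]

lemma not_hasC3_K₂ [DecidableEq X₁] (hM : ∀ g : Aut M, g.1.1 = 1 → g = 1) (x₂ : X₂)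
    (hfix : ∀ x : X₁, ∃ h ∈ Aut M, h.2 x₂ = x₂ ∧ h.1 x ≠ x) : ¬ HasC3 (K₂ M x₂) := by
  rintro ⟨⟨n, hn⟩, hn1, hn3, hk⟩
  have hn1' : n ≠ 1 := fun h => hn1 (Subtype.ext h)
  have hn3' : n ^ 3 = 1 := congrArg Subtype.val hn3
  have hk' : ∀ k ∈ K₂ M x₂, k * n * k⁻¹ = n ∨ k * n * k⁻¹ = n⁻¹ := by
    intro k hkk
    rcases hk ⟨k, hkk⟩ with h | h
    · exact Or.inl (congrArg Subtype.val h)
    · exact Or.inr (congrArg Subtype.val h)
  rw [mem_K₂] at hn
  obtain ⟨hnu3, hng2⟩ := hn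
  have hg3 : n.g ^ 3 = 1 := by
    have := congrArg Wr.g hn3'
    rw [pow_succ, pow_succ, pow_one, mul_g, mul_g] at this
    rw [pow_succ, pow_succ, pow_one]
    exact this
  -- the transposition at `x`
  let τ : X₁ → Wr M := fun x => ⟨Function.update (fun _ => 1) x (Equiv.swap 0 1), 1⟩
  have hτu : ∀ x z, (τ x).u z = if z = x then Equiv.swap 0 1 else 1 := by
    intro x z
    by_cases h : z = x
    · subst h; simp [τ]
    · simp [τ, h]
  have hτ : ∀ x, τ x ∈ K₂ M x₂ := by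
    intro x
    rw [mem_K₂]
    refine ⟨fun z => ?_, rfl⟩
    rw [hτu]
    split_ifs
    · exact t_ne.2
    · rfl
  have hτc : ∀ x z, (τ x * n * (τ x)⁻¹).u z =
      (τ x).u z * n.u z * ((τ x).u (n.g.1.1⁻¹ z))⁻¹ := by
    intro x z
    rw [conj_u]
    rfl
  have hτg : ∀ x, (τ x * n * (τ x)⁻¹).g = n.g := by
    intro x
    rw [mul_g, mul_g, inv_g]
    change 1 * n.g * (1 : Aut M)⁻¹ = n.g
    simp
  by_cases hg1 : n.g.1.1 = 1
  · have hg : n.g = 1 := hM n.g hg1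
    -- a nontrivial coordinate
    have hne : ∃ x, n.u x ≠ 1 := by
      by_contra hcon
      push Not at hcon
      exact hn1' (Wr.ext (funext hcon) hg)
    obtain ⟨x, hx⟩ := hne
    have hpowg : ∀ k : ℕ, (n ^ k).g = 1 := by
      intro k
      induction k with
      | zero => rfl
      | succ k ih => rw [pow_succ, mul_g, ih, hg, one_mul]
    have hpow : ∀ (k : ℕ) z, (n ^ k).u z = (n.u z) ^ k := by
      intro k
      induction k with
      | zero => intro z; rfl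
      | succ k ih =>
        intro z
        rw [pow_succ, mul_u, ih, hpowg, pow_succ]
        rfl
    have hu3 : ∀ z, (n.u z) ^ 3 = 1 := by
      intro z
      rw [← hpow, hn3']
      rfl
    have hginv : ∀ z, (n.g.1.1)⁻¹ z = z := by
      intro z
      rw [hg1]
      rfl
    have hsupp : ∀ z, z ≠ x → n.u z = 1 := by
      intro z hz
      rcases hk' _ (hτ x) with h | h
      · exfalso
        have h1 := congrFun (congrArg Wr.u h) x
        rw [hτc, hginv, hτu, if_pos rfl] at h1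
        exact t_facts _ (hnu3 x) hx (hu3 x) h1
      · have h1 := congrFun (congrArg Wr.u h) z
        rw [hτc, hginv, hτu, if_neg hz, inv_u, hg1, inv_one, mul_one, one_mul] at h1
        have h2 : n.u z = (n.u z)⁻¹ := h1
        have h3 : n.u z * n.u z = 1 := by
          nth_rewrite 1 [h2]
          exact inv_mul_cancel _
        have h4 := hu3 z
        rw [pow_succ, pow_two, h3, one_mul] at h4
        exact h4
    obtain ⟨h, hh, hhx₂, hhx⟩ := hfix x
    let k : Wr M := ⟨fun _ => 1, ⟨h, hh⟩⟩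
    have hkK : k ∈ K₂ M x₂ := by
      rw [mem_K₂]
      exact ⟨fun _ => rfl, hhx₂⟩
    have hku : (k * n * k⁻¹).u (h.1 x) = n.u x := by
      rw [conj_u]
      change 1 * n.u (h.1⁻¹ (h.1 x)) * 1⁻¹ = n.u x
      rw [invApp, one_mul, inv_one, mul_one]
    rcases hk' k hkK with hc | hc
    · rw [hc, hsupp _ hhx] at hku
      exact hx hku.symm
    · rw [hc, inv_u, hg1] at hku
      change (n.u (h.1 x))⁻¹ = n.u x at hku
      rw [hsupp _ hhx, inv_one] at hku
      exact hx hku.symm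
  · -- some point is moved
    have hne : ∃ x, n.g.1.1 x ≠ x := by
      by_contra hcon
      push Not at hcon
      exact hg1 (Equiv.ext hcon)
    obtain ⟨x, hx⟩ := hne
    rcases hk' _ (hτ x) with h | h
    · have h1 := congrFun (congrArg Wr.u h) x
      have h2 : (n.g.1.1)⁻¹ x ≠ x := by
        intro h
        rw [Perm.inv_eq_iff_eq] at h
        exact hx h.symm
      rw [hτc, hτu, if_pos rfl, hτu, if_neg h2, inv_one, mul_one] at h1
      exact t_ne.1 (mul_eq_right.mp h1)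
    · have h1 := congrArg Wr.g h
      rw [hτg, inv_g] at h1
      have h2 : n.g * n.g = 1 := by
        nth_rewrite 1 [h1]
        exact inv_mul_cancel _
      have h3 := hg3
      rw [pow_succ, pow_two, h2, one_mul] at h3
      apply hg1
      rw [h3]
      rfl

end

end Q17.Scott
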