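import Pool.Agent.Q17.Scott.Data

/-! Finite checks for the tables. -/

namespace Q17.Scott

/-- table lookup -/
def tab (N i : ℕ) : ℕ := (N >>> (8 * i)) % 256

/-- all entries below 203 -/
def all203 (f : ℕ → Bool) : Bool := Nat.all 203 fun i _ => f i

lemma all203_iff {f : ℕ → Bool} : all203 f = true ↔ ∀ i < 203, f i = true := by
  unfold all203
  rw [Nat.all_eq_finRange_all]
  simp only [List.all_eq_true, List.mem_finRange, forall_const]
  exact ⟨fun h i hi => h ⟨i, hi⟩, fun h i => h i i.2⟩

/-- range check, and orders two and three -/
def permCheck (A B : ℕ) : Bool :=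
  all203 fun i => decide (tab A i < 203) && decide (tab B i < 203) &&
    (tab A (tab A i) == i) && (tab B (tab B (tab B i)) == i)

lemma permCheck1 : permCheck T1 R1 = true := by decide +kernel
lemma permCheck2 : permCheck T2 R2 = true := by decide +kernel

/-- invariance of the bit matrix `P` under a pair of permutations -/
def invCheck (P A B : ℕ) : Bool :=
  all203 fun x => let a := 203 * tab A x
    all203 fun y => P.testBit (a + tab B y) == P.testBit (203 * x + y)

lemma invP_T : invCheck PM T1 T2 = true := by decide +kernel
lemma invP_R : invCheck PM R1 R2 = true := by decide +kernel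
lemma invN_T : invCheck NM T1 T2 = true := by decide +kernel
lemma invN_R : invCheck NM R1 R2 = true := by decide +kernel

end Q17.Scott
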