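import Pool.Agent.Q17.Scott.Check

/-! More finite checks for the tables. -/

namespace Q17.Scott

/-- positions of the entries 1 of the vector -/
def LP : List ℕ :=
  [0, 3, 4, 5, 11, 14, 19, 25, 31, 41, 51, 64, 66, 71, 79, 94, 103, 117, 119, 138, 201]

/-- positions of the entries -1 of the vector -/
def LN : List ℕ :=
  [42, 45, 55, 58, 69, 85, 87, 88, 105, 106, 108, 115, 125, 136, 140, 141, 148, 162, 168, 183]

/-- number of entries of the list with a one in column `y` -/
def cnt (l : List ℕ) (Q y : ℕ) : ℕ :=
  l.foldr (fun x s => (if Q.testBit (203 * x + y) then 1 else 0) + s) 0

/-- the vector-matrix product is the first basis vector -/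
def vecCheck : Bool :=
  all203 fun y => cnt LP PM y + cnt LN NM y == cnt LP NM y + cnt LN PM y + (if y == 0 then 1 else 0)

lemma vecCheck_true : vecCheck = true := by decide +kernel

lemma LP_lt : ∀ x ∈ LP, x < 203 := by decide
lemma LN_lt : ∀ x ∈ LN, x < 203 := by decide

/-- every positive point is the image of a smaller one -/
def transCheck (A B : ℕ) : Bool :=
  all203 fun x => x == 0 || Nat.any x fun q _ => tab A q == x || tab B q == x

lemma trans1 : transCheck T1 R1 = true := by decide +kernel
lemma trans2 : transCheck T2 R2 = true := by decide +kernel

/-- a word in the generators (`true` is the element of order three) -/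
def word : List Bool :=
  [true, true, false, true, true, false, true, false, true, false, true, false, true, false, true,
  false, true, false, true, false, true, true, false, true, false, true]

/-- evaluation of a word, rightmost letter first -/
def ev (A B : ℕ) (w : List Bool) (x : ℕ) : ℕ :=
  w.foldr (fun c y => if c then tab B y else tab A y) x

lemma word_fix : ev T2 R2 word 0 = 0 := by decide +kernel
lemma T2_fix : tab T2 0 = 0 := by decide +kernel

/-- no point of the first set is fixed by both elements -/
def fixCheck : Bool := all203 fun x => !(tab T1 x == x) || !(ev T1 R1 word x == x)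

lemma fixCheck_true : fixCheck = true := by decide +kernel

end Q17.Scott
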