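import Pool.Agent.Q17.Scott.Abstract
import Pool.Agent.Q17.Scott.Check2

/-! The concrete matrix of size 203. -/

namespace Q17.Scott

open Equiv

/-- a table as a function -/
def pf (N : ℕ) (x : Fin 203) : Fin 203 := ⟨tab N x % 203, Nat.mod_lt _ (by norm_num)⟩

lemma permCheck_spec {A B : ℕ} (h : permCheck A B = true) (i : ℕ) (hi : i < 203) :
    tab A i < 203 ∧ tab B i < 203 ∧ tab A (tab A i) = i ∧ tab B (tab B (tab B i)) = i := by
  have h1 := all203_iff.mp h i hi
  simp only [Bool.and_eq_true, decide_eq_true_eq, beq_iff_eq] at h1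
  exact ⟨h1.1.1.1, h1.1.1.2, h1.1.2, h1.2⟩

lemma pf_val {N : ℕ} (h : ∀ i < 203, tab N i < 203) (x : Fin 203) : (pf N x : ℕ) = tab N x :=
  Nat.mod_eq_of_lt (h x x.2)

/-- the involution of a table -/
def tP (A B : ℕ) (h : permCheck A B = true) : Perm (Fin 203) where
  toFun := pf A
  invFun := pf A
  left_inv := by
    intro x
    apply Fin.ext
    have hA : ∀ i < 203, tab A i < 203 := fun i hi => (permCheck_spec h i hi).1
    rw [pf_val hA, pf_val hA]
    exact (permCheck_spec h x x.2).2.2.1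
  right_inv := by
    intro x
    apply Fin.ext
    have hA : ∀ i < 203, tab A i < 203 := fun i hi => (permCheck_spec h i hi).1
    rw [pf_val hA, pf_val hA]
    exact (permCheck_spec h x x.2).2.2.1

/-- the element of order three of a table -/
def rP (A B : ℕ) (h : permCheck A B = true) : Perm (Fin 203) where
  toFun := pf B
  invFun := fun x => pf B (pf B x)
  left_inv := by
    intro x
    apply Fin.ext
    have hB : ∀ i < 203, tab B i < 203 := fun i hi => (permCheck_spec h i hi).2.1
    rw [pf_val hB, pf_val hB, pf_val hB]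
    exact (permCheck_spec h x x.2).2.2.2
  right_inv := by
    intro x
    apply Fin.ext
    have hB : ∀ i < 203, tab B i < 203 := fun i hi => (permCheck_spec h i hi).2.1
    rw [pf_val hB, pf_val hB, pf_val hB]
    exact (permCheck_spec h x x.2).2.2.2

/-- the matrix -/
def Mat (x y : Fin 203) : ℤ :=
  (if PM.testBit (203 * x + y) then 1 else 0) - (if NM.testBit (203 * x + y) then 1 else 0)

lemma inv_spec {P A B : ℕ} (h : invCheck P A B = true) (x y : ℕ) (hx : x < 203) (hy : y < 203) :
    P.testBit (203 * tab A x + tab B y) = P.testBit (203 * x + y) := by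
  have h1 := all203_iff.mp (all203_iff.mp h x hx) y hy
  simpa using h1

/-- first generator -/
def gt : Perm (Fin 203) × Perm (Fin 203) := (tP T1 R1 permCheck1, tP T2 R2 permCheck2)
/-- second generator -/
def gr : Perm (Fin 203) × Perm (Fin 203) := (rP T1 R1 permCheck1, rP T2 R2 permCheck2)

lemma val_t1 (x : Fin 203) : ((gt.1 x : Fin 203) : ℕ) = tab T1 x :=
  pf_val (fun i hi => (permCheck_spec permCheck1 i hi).1) x
lemma val_t2 (x : Fin 203) : ((gt.2 x : Fin 203) : ℕ) = tab T2 x :=
  pf_val (fun i hi => (permCheck_spec permCheck2 i hi).1) x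
lemma val_r1 (x : Fin 203) : ((gr.1 x : Fin 203) : ℕ) = tab R1 x :=
  pf_val (fun i hi => (permCheck_spec permCheck1 i hi).2.1) x
lemma val_r2 (x : Fin 203) : ((gr.2 x : Fin 203) : ℕ) = tab R2 x :=
  pf_val (fun i hi => (permCheck_spec permCheck2 i hi).2.1) x

lemma gt_mem : gt ∈ Aut Mat := by
  intro x y
  unfold Mat
  rw [val_t1, val_t2, inv_spec invP_T x y x.2 y.2, inv_spec invN_T x y x.2 y.2]

lemma gr_mem : gr ∈ Aut Mat := by
  intro x y
  unfold Mat
  rw [val_r1, val_r2, inv_spec invP_R x y x.2 y.2, inv_spec invN_R x y x.2 y.2]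

lemma trans_spec {A B : ℕ} (h : transCheck A B = true) (x : ℕ) (hx : x < 203) (h0 : x ≠ 0) :
    ∃ q < x, tab A q = x ∨ tab B q = x := by
  have h1 := all203_iff.mp h x hx
  simp only [Bool.or_eq_true, beq_iff_eq] at h1
  rcases h1 with h1 | h1
  · exact absurd h1 h0
  · rw [Nat.any_eq_finRange_any] at h1
    simp only [List.any_eq_true, List.mem_finRange, true_and] at h1
    obtain ⟨q, hq⟩ := h1
    simp only [Bool.or_eq_true, beq_iff_eq] at hq
    exact ⟨q, q.2, hq⟩

lemma reach₁ : ∀ n (hn : n < 203), ∃ g ∈ Aut Mat, g.1 (0 : Fin 203) = ⟨n, hn⟩ := by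
  intro n
  induction n using Nat.strong_induction_on with
  | _ n ih =>
    intro hn
    by_cases h0 : n = 0
    · subst h0
      exact ⟨1, Subgroup.one_mem _, rfl⟩
    · obtain ⟨q, hq, h⟩ := trans_spec trans1 n hn h0
      obtain ⟨g, hg, hgq⟩ := ih q hq (hq.trans hn)
      rcases h with h | h
      · refine ⟨gt * g, Subgroup.mul_mem _ gt_mem hg, ?_⟩
        change gt.1 (g.1 0) = _
        rw [hgq]
        apply Fin.ext
        rw [val_t1]
        exact h
      · refine ⟨gr * g, Subgroup.mul_mem _ gr_mem hg, ?_⟩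
        change gr.1 (g.1 0) = _
        rw [hgq]
        apply Fin.ext
        rw [val_r1]
        exact h

lemma reach₂ : ∀ n (hn : n < 203), ∃ g ∈ Aut Mat, g.2 (0 : Fin 203) = ⟨n, hn⟩ := by
  intro n
  induction n using Nat.strong_induction_on with
  | _ n ih =>
    intro hn
    by_cases h0 : n = 0
    · subst h0
      exact ⟨1, Subgroup.one_mem _, rfl⟩
    · obtain ⟨q, hq, h⟩ := trans_spec trans2 n hn h0
      obtain ⟨g, hg, hgq⟩ := ih q hq (hq.trans hn)
      rcases h with h | h
      · refine ⟨gt * g, Subgroup.mul_mem _ gt_mem hg, ?_⟩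
        change gt.2 (g.2 0) = _
        rw [hgq]
        apply Fin.ext
        rw [val_t2]
        exact h
      · refine ⟨gr * g, Subgroup.mul_mem _ gr_mem hg, ?_⟩
        change gr.2 (g.2 0) = _
        rw [hgq]
        apply Fin.ext
        rw [val_r2]
        exact h

lemma transitive₁ (x y : Fin 203) : ∃ g ∈ Aut Mat, g.1 x = y := by
  obtain ⟨g, hg, hgx⟩ := reach₁ x x.2
  obtain ⟨h, hh, hhy⟩ := reach₁ y y.2
  refine ⟨h * g⁻¹, Subgroup.mul_mem _ hh (Subgroup.inv_mem _ hg), ?_⟩
  change h.1 (g.1⁻¹ x) = y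
  have : g.1⁻¹ x = 0 := by
    rw [Perm.inv_eq_iff_eq]
    exact hgx.symm
  rw [this]
  exact hhy

lemma transitive₂ (x y : Fin 203) : ∃ g ∈ Aut Mat, g.2 x = y := by
  obtain ⟨g, hg, hgx⟩ := reach₂ x x.2
  obtain ⟨h, hh, hhy⟩ := reach₂ y y.2
  refine ⟨h * g⁻¹, Subgroup.mul_mem _ hh (Subgroup.inv_mem _ hg), ?_⟩
  change h.2 (g.2⁻¹ x) = y
  have : g.2⁻¹ x = 0 := by
    rw [Perm.inv_eq_iff_eq]
    exact hgx.symm
  rw [this]
  exact hhy

/-- the element of a word -/
def wordElt (w : List Bool) : Perm (Fin 203) × Perm (Fin 203) :=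
  w.foldr (fun c g => (if c then gr else gt) * g) 1

lemma wordElt_mem (w : List Bool) : wordElt w ∈ Aut Mat := by
  induction w with
  | nil => exact Subgroup.one_mem _
  | cons c w ih =>
    change (if c then gr else gt) * wordElt w ∈ Aut Mat
    refine Subgroup.mul_mem _ ?_ ih
    split_ifs
    · exact gr_mem
    · exact gt_mem

lemma wordElt_1 (w : List Bool) (x : Fin 203) :
    (((wordElt w).1 x : Fin 203) : ℕ) = ev T1 R1 w x := by
  induction w with
  | nil => rfl
  | cons c w ih =>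
    cases c with
    | false =>
      change ((gt.1 ((wordElt w).1 x) : Fin 203) : ℕ) = tab T1 (ev T1 R1 w x)
      rw [val_t1, ih]
    | true =>
      change ((gr.1 ((wordElt w).1 x) : Fin 203) : ℕ) = tab R1 (ev T1 R1 w x)
      rw [val_r1, ih]

lemma wordElt_2 (w : List Bool) (x : Fin 203) :
    (((wordElt w).2 x : Fin 203) : ℕ) = ev T2 R2 w x := by
  induction w with
  | nil => rfl
  | cons c w ih =>
    cases c with
    | false =>
      change ((gt.2 ((wordElt w).2 x) : Fin 203) : ℕ) = tab T2 (ev T2 R2 w x)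
      rw [val_t2, ih]
    | true =>
      change ((gr.2 ((wordElt w).2 x) : Fin 203) : ℕ) = tab R2 (ev T2 R2 w x)
      rw [val_r2, ih]

lemma hfix (x : Fin 203) : ∃ h ∈ Aut Mat, h.2 (0 : Fin 203) = 0 ∧ h.1 x ≠ x := by
  have h1 := all203_iff.mp fixCheck_true x x.2
  simp only [Bool.or_eq_true, Bool.not_eq_true', beq_eq_false_iff_ne] at h1
  rcases h1 with h1 | h1
  · refine ⟨gt, gt_mem, ?_, ?_⟩
    · apply Fin.ext
      rw [val_t2]
      exact T2_fix
    · intro h
      apply h1
      rw [← val_t1, h]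
  · refine ⟨wordElt word, wordElt_mem _, ?_, ?_⟩
    · apply Fin.ext
      rw [wordElt_2]
      exact word_fix
    · intro h
      apply h1
      rw [← wordElt_1, h]

/-- a natural number as a point -/
def pt (i : ℕ) : Fin 203 := ⟨i % 203, Nat.mod_lt _ (by norm_num)⟩

/-- the vector -/
def vec (x : Fin 203) : ℤ :=
  (LP.map fun i => if pt i = x then (1 : ℤ) else 0).sum -
    (LN.map fun i => if pt i = x then (1 : ℤ) else 0).sum

lemma sum_list (l : List ℕ) (f : Fin 203 → ℤ) :
    ∑ x, (l.map fun i => if pt i = x then (1 : ℤ) else 0).sum * f x =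
      (l.map fun i => f (pt i)).sum := by
  induction l with
  | nil => simp
  | cons a l ih =>
    simp only [List.map_cons, List.sum_cons, add_mul, Finset.sum_add_distrib, ih]
    simp

lemma list_cnt (l : List ℕ) (hl : ∀ x ∈ l, x < 203) (y : Fin 203) :
    (l.map fun i => Mat (pt i) y).sum = (cnt l PM y : ℤ) - (cnt l NM y : ℤ) := by
  induction l with
  | nil => simp [cnt]
  | cons a l ih =>
    have ha : a < 203 := hl a (by simp)
    have h1 : ∀ Q : ℕ, cnt (a :: l) Q y = (if Q.testBit (203 * a + y) then 1 else 0) + cnt l Q y :=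
      fun Q => rfl
    rw [List.map_cons, List.sum_cons, ih (fun x hx => hl x (by simp [hx])), h1, h1]
    have h2 : ((pt a : Fin 203) : ℕ) = a := Nat.mod_eq_of_lt ha
    unfold Mat
    rw [h2]
    push_cast
    ring

lemma vec_spec (y : Fin 203) : ∑ x, vec x * Mat x y = if y = 0 then 1 else 0 := by
  have h1 : ∑ x, vec x * Mat x y =
      (LP.map fun i => Mat (pt i) y).sum - (LN.map fun i => Mat (pt i) y).sum := by
    unfold vec
    simp only [sub_mul, Finset.sum_sub_distrib]
    rw [sum_list LP (fun x => Mat x y), sum_list LN (fun x => Mat x y)]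
  rw [h1, list_cnt LP LP_lt, list_cnt LN LN_lt]
  have h2 := all203_iff.mp vecCheck_true y y.2
  simp only [beq_iff_eq] at h2
  have h3 : ((y : ℕ) = 0) ↔ y = 0 := ⟨fun h => Fin.ext h, fun h => by rw [h]; rfl⟩
  by_cases hy : y = 0
  · rw [if_pos (h3.mpr hy)] at h2
    rw [if_pos hy]
    omega
  · rw [if_neg (fun h => hy (h3.mp h))] at h2
    rw [if_neg hy]
    omega

/-- The final statement. -/
theorem main : ∃ (Γ : Type) (_ : Group Γ) (_ : Finite Γ) (H K : Subgroup Γ),
    H.normalCore = ⊥ ∧ K.normalCore = ⊥ ∧ ZEquiv H K ∧ ¬ Nonempty (H ≃* K) := by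
  have hM : ∀ g : Aut Mat, g.1.1 = 1 → g = 1 := fun g hg =>
    aut_faithful transitive₂ 0 vec vec_spec g hg
  refine ⟨Wr Mat, inferInstance, inferInstance, K₁ Mat 0, K₂ Mat 0,
    coreFree₁ transitive₁ hM 0, coreFree₂ transitive₂ hM 0,
    zequiv rfl transitive₁ transitive₂ 0 0 0 vec vec_spec, ?_⟩
  rintro ⟨e⟩
  exact not_hasC3_K₂ hM 0 hfix (hasC3_of_equiv e (hasC3_K₁ 0))

end Q17.Scott
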